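import Mathlib
import Pool.Agent.H56.Sb6

namespace Pool.Agent.Results.MP_e70f96_nt.ModCube
open Finset Pool.Agent.H56.Sb2 Pool.Agent.H56.Sb3 Pool.Agent.H56.Sb6

theorem third (a : ℤ) (j : ℕ) (ha : a % 3 ≠ 0) : (a : ℚ) / 3 + j ≠ 0 := by
  intro h
  have : (a + 3 * (j : ℤ) : ℤ) = 0 := by
    have : ((a : ℚ) + 3 * j) = 0 := by linarith
    exact_mod_cast this
  omega

theorem tform (k : ℕ) :
    (∏ j ∈ range k, ((-1/3 : ℚ) + j)) ^ 4 * ((2 * k).factorial : ℚ) /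
      ((k.factorial : ℚ) ^ 4 * ∏ j ∈ range (2 * k), ((-2/3 : ℚ) + j)) =
    ∏ j ∈ range k, (((-1/3 : ℚ) + j) ^ 3 * (1/2 + j) * (((j : ℚ) + 1)⁻¹) ^ 3 * (1/6 + (j : ℚ))⁻¹) := by
  induction k with
  | zero => simp
  | succ k ih =>
    rw [prod_range_succ _ k, prod_range_succ _ k, ← ih, show 2 * (k + 1) = 2 * k + 1 + 1 by ring,
      prod_range_succ, prod_range_succ, Nat.factorial_succ, Nat.factorial_succ,
      Nat.factorial_succ k]
    have h1 : (∏ j ∈ range (2 * k), ((-2/3 : ℚ) + j)) ≠ 0 :=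
      prod_ne_zero_iff.2 fun j _ => by simpa using third (-2) j (by norm_num)
    have h2 : (k.factorial : ℚ) ≠ 0 := by positivity
    have h3 : (-1/3 + (k : ℚ)) ≠ 0 := by simpa using third (-1) k (by norm_num)
    generalize (∏ j ∈ range (2 * k), ((-2/3 : ℚ) + j)) = A at *
    generalize (∏ j ∈ range k, ((-1/3 : ℚ) + j)) = A'
    push_cast
    rw [show (-2/3 + 2 * (k : ℚ)) = 2 * (-1/3 + k) by ring,
      show (-2/3 + (2 * (k : ℚ) + 1)) = 2 * (1/6 + k) by ring]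
    generalize (-1/3 + (k : ℚ)) = u at *
    field_simp
    ring

theorem exact_sum (n : ℕ) :
    ∑ k ∈ range (n + 1), (6 * (k : ℚ) - 1) * ∏ j ∈ range k,
      (((-1/3 : ℚ) + j) * ((j : ℚ) - n) * (n - 2/3 + j) * (1/2 + j) /
        (((j : ℚ) + 1) * (4/3 - n + j) * (1/6 + j) * (2/3 + n + j))) = 3 * n - 1 := by
  have h := vwp (-1/3) (n - 2/3) (1/2) (fun j => by
      rw [show (1 : ℚ) + -1/3 = 2/3 by norm_num]; positivity)
    (fun j => by
      have := third (4 - 3 * n) j (by omega)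
      push_cast at this
      intro h; apply this; linarith)
    (fun j => by rw [show (1 : ℚ) + -1/3 - 1/2 = 1/6 by norm_num]; positivity) n
  rw [show (1 : ℚ) + -1/3 - (n - 2/3) - 1/2 = 1 - 1/6 - n by ring,
    show (1 : ℚ) + -1/3 - (n - 2/3) = 1 - (-1/3) - n by ring,
    show (1 : ℚ) + -1/3 - 1/2 = 1/6 by norm_num, refl_poch, refl_poch,
    show (1 : ℚ) + -1/3 = 2/3 by norm_num, show (1 : ℚ) - (-1/3) = 4/3 by norm_num] at h
  have h3 : -1/3 * poch (2/3) n = poch (-1/3) n * (n - 1/3) := by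
    clear h
    induction n with
    | zero => simp [poch]; norm_num
    | succ n ih => rw [poch_succ, poch_succ, ← mul_assoc, ih]; push_cast; ring
  have h4 : poch (-1/3) n ≠ 0 :=
    prod_ne_zero_iff.2 fun j _ => by simpa using third (-1) j (by norm_num)
  have h5 := (poch_pos (x := 1/6) (by norm_num) n).ne'
  rw [h3] at h
  calc _ = 3 * ∑ k ∈ range (n + 1), (-1/3 + 2 * (k : ℚ)) * ∏ j ∈ range k,
      (((-1/3 : ℚ) + j) * ((j : ℚ) - n) * (n - 2/3 + j) * (1/2 + j) /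
        (((j : ℚ) + 1) * (4/3 - n + j) * (1/6 + j) * (2/3 + n + j))) := by
        rw [Finset.mul_sum]
        exact Finset.sum_congr rfl fun k _ => by ring
    _ = _ := by
      rw [h]
      generalize poch (-1/3) n = A at *
      field_simp

theorem result (p : ℕ) (hp : p.Prime) (h3 : p % 3 = 2) :
    ∃ a b : ℤ, ¬ (p : ℤ) ∣ b ∧
      ((∑ k ∈ range ((p + 1) / 3 + 1), (6 * (k : ℚ) - 1) *
        ((∏ j ∈ range k, ((-1/3 : ℚ) + j)) ^ 4 * ((2 * k).factorial : ℚ) /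
          ((k.factorial : ℚ) ^ 4 * ∏ j ∈ range (2 * k), ((-2/3 : ℚ) + j)))) - p) / (p : ℚ) ^ 3
        = a / b := by
  have : Fact p.Prime := ⟨hp⟩
  rcases hp.eq_two_or_odd with h2 | hodd
  · subst h2
    refine ⟨-4, 9, by norm_num, ?_⟩
    norm_num [sum_range_succ, prod_range_succ, Nat.factorial]
  obtain ⟨n, hn⟩ : ∃ n, p + 1 = 3 * n := ⟨(p + 1) / 3, by omega⟩
  have hp2 := hp.two_le
  have hev : Even n := by rw [Nat.even_iff]; omega
  have hpq : (p : ℚ) = 3 * n - 1 := by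
    have : (p : ℚ) + 1 = 3 * n := by exact_mod_cast hn
    linarith
  have hp0 : (p : ℚ) ≠ 0 := by positivity
  have hpm : (p : ℚ) ∈ Zp p := natCast_mem _ _
  have hnd : ∀ a : ℤ, a ≠ 0 → -(p : ℤ) < a → a < p → ¬ (p : ℤ) ∣ a := by
    intro a h0 h1 h2 h
    exact h0 (Int.eq_zero_of_abs_lt_dvd h (abs_lt.2 ⟨h1, h2⟩))
  have hnd2 : ∀ a : ℤ, a ≠ 0 → a ≠ p → -(p : ℤ) < a → a < 2 * p → ¬ (p : ℤ) ∣ a := by
    intro a h0 h0' h1 h2 h
    by_cases hl : a < p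
    · exact hnd a h0 h1 hl h
    · exact hnd (a - p) (by omega) (by omega) (by omega) (dvd_sub h (dvd_refl _))
  rw [show (p + 1) / 3 = n by omega]
  simp_rw [tform]
  have i2 : ((2 : ℚ))⁻¹ ∈ Zp p := by simpa using inv_mem_nat (p := p) 2 (by omega) (by omega)
  have i3 : ((3 : ℚ))⁻¹ ∈ Zp p := by simpa using inv_mem_nat (p := p) 3 (by omega) (by omega)
  have m13 : (1/3 : ℚ) ∈ Zp p := by simpa using i3
  have m12 : (1/2 : ℚ) ∈ Zp p := by simpa using i2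
  have m56 : (1/6 : ℚ) ∈ Zp p := by
    rw [show (1/6 : ℚ) = 1/2 - 1/3 by norm_num]; exact sub_mem m12 m13
  have mm13 : (-1/3 : ℚ) ∈ Zp p := by
    rw [show (-1/3 : ℚ) = -(1/3) by norm_num]; exact neg_mem m13
  have nm : ∀ j : ℕ, (j : ℚ) ∈ Zp p := fun j => natCast_mem _ _
  have m3 : (3 : ℚ) ∈ Zp p := by simpa using nm 3
  have uj : ∀ j < n, ((j : ℚ) + 1) ≠ 0 ∧ ((j : ℚ) + 1)⁻¹ ∈ Zp p := fun j hj =>
    inv_frac _ (j + 1) 1 (hnd _ (by omega) (by omega) (by omega)) one_ne_zero (by simp)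
  have u56 : ∀ j < n, (1/6 + (j : ℚ)) ≠ 0 ∧ (1/6 + (j : ℚ))⁻¹ ∈ Zp p := fun j hj =>
    inv_frac _ (6 * j + 1) 6 (hnd2 _ (by omega) (by omega) (by omega) (by omega))
      (by norm_num) (by push_cast; ring)
  have uh : ∀ j < n, (1/2 - n + (j : ℚ)) ≠ 0 ∧ (1/2 - n + (j : ℚ))⁻¹ ∈ Zp p := fun j hj =>
    inv_frac _ (1 - 2 * n + 2 * j) 2 (hnd _ (by omega) (by omega) (by omega)) (by norm_num)
      (by push_cast; ring)
  have ua : ∀ j < n, (3 * (j : ℚ) - 1) ≠ 0 ∧ (3 * (j : ℚ) - 1)⁻¹ ∈ Zp p := fun j hj =>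
    inv_frac _ (3 * j - 1) 1 (hnd _ (by omega) (by omega) (by omega)) one_ne_zero (by simp)
  have ub : ∀ j < n, (3 * ((j : ℚ) + 1)) ≠ 0 ∧ (3 * ((j : ℚ) + 1))⁻¹ ∈ Zp p := fun j hj =>
    inv_frac _ (3 * (j + 1)) 1 (hnd2 _ (by omega) (by omega) (by omega) (by omega)) one_ne_zero (by simp)
  have uc : ∀ j < n, (3 * ((j : ℚ) - n)) ≠ 0 ∧ (3 * ((j : ℚ) - n))⁻¹ ∈ Zp p := fun j hj =>
    inv_frac _ (3 * (j - n)) 1 (fun h => hnd2 (-(3 * (j - n))) (by omega) (by omega) (by omega)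
      (by omega) (dvd_neg.2 h)) one_ne_zero (by simp)
  have ud : ∀ j < n, (3 * ((j : ℚ) + 1) - p) ≠ 0 ∧ (3 * ((j : ℚ) + 1) - p)⁻¹ ∈ Zp p := fun j hj =>
    inv_frac _ (3 * (j + 1) - p) 1 (hnd _ (by omega) (by omega) (by omega)) one_ne_zero (by simp)
  have ue : ∀ j < n, (3 * ((j : ℚ) + 1) + p) ≠ 0 ∧ (3 * ((j : ℚ) + 1) + p)⁻¹ ∈ Zp p := fun j hj =>
    inv_frac _ (3 * (j + 1) + p) 1 (fun h => hnd2 (3 * (j + 1)) (by omega) (by omega) (by omega) (by omega)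
      (by simpa using dvd_sub h (dvd_refl (p : ℤ)))) one_ne_zero (by simp)
  set ω : ℕ → ℚ := fun j => ((-1/3 : ℚ) + j) ^ 3 * (1/2 + j) * (((j : ℚ) + 1)⁻¹) ^ 3 *
    (1/6 + (j : ℚ))⁻¹ with hω
  set ρ : ℕ → ℚ := fun j => ((j : ℚ) - n) ^ 3 * (1/2 + j) * (((j : ℚ) + 1)⁻¹) ^ 3 *
    (1/2 - n + (j : ℚ))⁻¹ with hρ
  set s : ℕ → ℚ := fun j => ((3 * ((j : ℚ) + 1))⁻¹) ^ 2 - ((3 * (j : ℚ) - 1)⁻¹) ^ 2 with hs
  set σ : ℕ → ℚ := fun j => ((3 * ((j : ℚ) + 1))⁻¹) ^ 2 - ((3 * ((j : ℚ) - n))⁻¹) ^ 2 with hσ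
  set r : ℕ → ℚ := fun j => ((3 * (j : ℚ) - 1) ^ 2 - (p : ℚ) ^ 2) * ((3 * (j : ℚ) - 1)⁻¹) ^ 2 *
    (3 * ((j : ℚ) + 1)) ^ 2 * (3 * ((j : ℚ) + 1) - p)⁻¹ * (3 * ((j : ℚ) + 1) + p)⁻¹ with hr
  have cω : ∀ j < n, Cg p (ω j) (ρ j) := by
    intro j hj
    have c1 : Cg p (-1/3 + (j : ℚ)) ((j : ℚ) - n) :=
      ⟨add_mem mm13 (nm j), sub_mem (nm j) (nm n), 1/3, m13, by rw [hpq]; ring⟩
    have c2 : Cg p (1/6 + (j : ℚ)) (1/2 - n + (j : ℚ)) :=
      ⟨add_mem m56 (nm j), add_mem (sub_mem m12 (nm n)) (nm j), 1/3, m13, by rw [hpq]; ring⟩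
    exact (((c1.pow 3).mul (Cg.refl (add_mem m12 (nm j)))).mul
      (Cg.refl (pow_mem (uj j hj).2 3))).mul
      (c2.inv (u56 j hj).1 (uh j hj).1 (u56 j hj).2 (uh j hj).2)
  have cs : ∀ j < n, Cg p (s j) (σ j) := by
    intro j hj
    have c1 : Cg p (3 * (j : ℚ) - 1) (3 * ((j : ℚ) - n)) :=
      ⟨sub_mem (mul_mem m3 (nm j)) (one_mem _), mul_mem m3 (sub_mem (nm j) (nm n)), 1, one_mem _,
        by rw [hpq]; ring⟩
    exact (Cg.refl (pow_mem (ub j hj).2 2)).sub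
      ((c1.inv (ua j hj).1 (uc j hj).1 (ua j hj).2 (uc j hj).2).pow 2)
  have hanti := antisym n hev ρ σ (by
      intro j hj
      have e : ((n - 1 - j : ℕ) : ℚ) = n - 1 - j := by
        rw [show n - 1 - j = n - (j + 1) by omega, Nat.cast_sub (by omega)]; push_cast; ring
      have a1 := (uj j hj).1
      have a2 := (uh j hj).1
      have a3 : (j : ℚ) - n ≠ 0 := fun h => (uc j hj).1 (by rw [h]; simp)
      have a4 : (1/2 + (j : ℚ)) ≠ 0 := by positivity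
      simp only [hρ, e]
      rw [show (n : ℚ) - 1 - j - n = -(j + 1) by ring,
        show (1/2 + ((n : ℚ) - 1 - j)) = -(1/2 - n + j) by ring,
        show ((n : ℚ) - 1 - j + 1) = -(j - n) by ring,
        show (1/2 - (n : ℚ) + (n - 1 - j)) = -(1/2 + j) by ring]
      generalize (1/2 - (n : ℚ) + j) = A at *
      generalize ((j : ℚ) - n) = A2 at *
      generalize (1/2 + (j : ℚ)) = A3 at *
      generalize ((j : ℚ) + 1) = A4 at *
      field_simp)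
    (by
      intro j hj
      have e : ((n - 1 - j : ℕ) : ℚ) = n - 1 - j := by
        rw [show n - 1 - j = n - (j + 1) by omega, Nat.cast_sub (by omega)]; push_cast; ring
      simp only [hσ, e]
      rw [show (3 : ℚ) * (n - 1 - j - n) = -(3 * (j + 1)) by ring,
        show (3 : ℚ) * (n - 1 - j + 1) = -(3 * (j - n)) by ring, inv_neg, inv_neg]
      ring)
  have hC : Cg p (∑ k ∈ range (n + 1), (6 * (k : ℚ) - 1) * (∏ j ∈ range k, ω j) *
      ∑ j ∈ range k, s j) (∑ k ∈ range (n + 1), 3 * ((2 * (k : ℚ) - n) * (∏ j ∈ range k, ρ j) *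
      ∑ j ∈ range k, σ j)) := by
    refine Cg.sum _ fun k hk => ?_
    have c1 : Cg p (6 * (k : ℚ) - 1) (3 * (2 * (k : ℚ) - n)) :=
      ⟨sub_mem (by simpa using nm (6 * k)) (one_mem _), mul_mem m3 (sub_mem (by simpa using nm (2 * k)) (nm n)),
        1, one_mem _, by rw [hpq]; ring⟩
    have := (c1.mul (Cg.prod k fun j hj => cω j (by omega))).mul
      (Cg.sum k fun j hj => cs j (by omega))
    rwa [mul_assoc (3 : ℚ), mul_assoc (3 : ℚ)] at this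
  rw [← Finset.mul_sum, hanti] at hC
  obtain ⟨_, _, y, hy, hye⟩ := hC
  have hrexp : ∀ j < n, ∃ z ∈ Zp p, r j = 1 + (p : ℚ) ^ 2 * s j + (p : ℚ) ^ 3 * z := by
    intro j hj
    refine ⟨p * s j * (3 * ((j : ℚ) + 1) - p)⁻¹ * (3 * ((j : ℚ) + 1) + p)⁻¹,
      mul_mem (mul_mem (mul_mem hpm (cs j hj).1) (ud j hj).2) (ue j hj).2, ?_⟩
    have a1 := (ua j hj).1
    have a2 := (ub j hj).1
    have a3 := (ud j hj).1
    have a4 := (ue j hj).1
    simp only [hr, hs]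
    generalize (3 * (j : ℚ) - 1) = A at *
    generalize (3 * ((j : ℚ) + 1)) = A2 at *
    field_simp
    ring
  have hz : ∀ k, ∃ z, z ∈ Zp p ∧ (k ≤ n → ∏ j ∈ range k, r j =
      1 + (p : ℚ) ^ 2 * (∑ j ∈ range k, s j) + (p : ℚ) ^ 3 * z) := by
    intro k
    by_cases hk : k ≤ n
    · obtain ⟨z, hz, e⟩ := prod_expand (p := p) k r s (fun j hj => (cs j (by omega)).1)
        (fun j hj => hrexp j (by omega))
      exact ⟨z, hz, fun _ => e⟩
    · exact ⟨0, zero_mem _, fun h => absurd h hk⟩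
  choose z hz hze using hz
  have hE := exact_sum n
  have hE2 : ∑ k ∈ range (n + 1), (6 * (k : ℚ) - 1) * ∏ j ∈ range k,
      (((-1/3 : ℚ) + j) * ((j : ℚ) - n) * (n - 2/3 + j) * (1/2 + j) /
        (((j : ℚ) + 1) * (4/3 - n + j) * (1/6 + j) * (2/3 + n + j))) =
      ∑ k ∈ range (n + 1), (6 * (k : ℚ) - 1) * ∏ j ∈ range k, ω j
      + (p : ℚ) ^ 2 * ∑ k ∈ range (n + 1), (6 * (k : ℚ) - 1) * (∏ j ∈ range k, ω j) *
        ∑ j ∈ range k, s j
      + (p : ℚ) ^ 3 * ∑ k ∈ range (n + 1), (6 * (k : ℚ) - 1) * (∏ j ∈ range k, ω j) * z k := by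
    rw [Finset.mul_sum, Finset.mul_sum, ← Finset.sum_add_distrib, ← Finset.sum_add_distrib]
    refine Finset.sum_congr rfl fun k hk => ?_
    have hk' : k ≤ n := by simpa [Nat.lt_succ_iff] using hk
    have : ∏ j ∈ range k, (((-1/3 : ℚ) + j) * ((j : ℚ) - n) * (n - 2/3 + j) * (1/2 + j) /
        (((j : ℚ) + 1) * (4/3 - n + j) * (1/6 + j) * (2/3 + n + j))) =
        (∏ j ∈ range k, ω j) * ∏ j ∈ range k, r j := by
      rw [← Finset.prod_mul_distrib]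
      refine Finset.prod_congr rfl fun j hj => ?_
      have hj' : j < n := by simp at hj; omega
      have a3 := (ud j hj').1
      have a4 := (ua j hj').1
      simp only [hω, hr]
      rw [show (4/3 - (n : ℚ) + j) = (3 * ((j : ℚ) + 1) - p) / 3 by rw [hpq]; ring,
        show (2/3 + (n : ℚ) + j) = (3 * ((j : ℚ) + 1) + p) / 3 by rw [hpq]; ring,
        show ((j : ℚ) - n) = (3 * j - 1 - p) / 3 by rw [hpq]; ring,
        show ((n : ℚ) - 2/3 + j) = (3 * j - 1 + p) / 3 by rw [hpq]; ring]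
      rw [show (-1/3 + (j : ℚ)) = (3 * j - 1) / 3 by ring]
      generalize (3 * ((j : ℚ) + 1) - p) = A at *
      generalize (3 * (j : ℚ) - 1) = A2 at *
      field_simp
      ring
    rw [this, hze k hk']; ring
  have hW : ∑ k ∈ range (n + 1), (6 * (k : ℚ) - 1) * (∏ j ∈ range k, ω j) * z k ∈ Zp p :=
    sum_mem fun k hk => mul_mem (mul_mem (sub_mem (by simpa using nm (6 * k)) (one_mem _))
      (prod_mem fun j hj => (cω j (by simp at hj hk; omega)).1)) (hz k)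
  have hfin : (∑ k ∈ range (n + 1), (6 * (k : ℚ) - 1) * ∏ j ∈ range k, ω j - p) / (p : ℚ) ^ 3
      = -(y + ∑ k ∈ range (n + 1), (6 * (k : ℚ) - 1) * (∏ j ∈ range k, ω j) * z k) := by
    rw [div_eq_iff (pow_ne_zero 3 hp0)]
    rw [← hpq] at hE
    linear_combination hE - hE2 - (p : ℚ) ^ 2 * hye
  rw [hfin]
  exact (neg_mem (add_mem hy hW) : _ ∈ Zp p)

end Pool.Agent.Results.MP_e70f96_nt.ModCube
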